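import Pool.Agent.Helper80.NH.Stm

/-!
# The inequality part of `N_2(1/2) = 2` (MP_665203_co): second form of ARMH and BASEH (160 degrees)

ARMH is split into two halves; the second half only in the region of the case I of STAR.
-/

set_option autoImplicit false

namespace H11ST
namespace NH

open Real

/-- BASEH with 160 degrees -/
def ST_BASEH160 : Prop := ∀ A B C D O : ℝ, Box A B C D O →
  2 * π / 3 - A - C ≤ π / 3 + C - O → 2 * π / 3 - B - D ≤ π / 3 + D + O →
  160 / 180 * π ≤ (π / 3 + C - O) + (π / 3 + D + O) →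
  ch (A + B) + ch (2 * π / 3 - A - C) + ch (π / 3 + C - O) / 2 + ch (π / 3 + D + O) / 2 +
      ch (2 * π / 3 - B - D) + 24 / 1000 <
    cos A + cos B + cos C + cos D + cos O

/-- ARMH, first half: the loss with the weights 1/2, 1/2 is at most 24/1000 -/
def ST_ARMHa : Prop := ∀ al r Up Um : ℝ, |al| ≤ π / 6 → Arm al r Up Um →
  r ≤ cos al - √(1 / 4 - sin al ^ 2) →
  r ≤ br (π / 2 + al) Um / 2 + br (π / 2 - al) Up / 2 + 24 / 1000

/-- ARMH, second half: no loss if the sum of the gaps is at most 160 degrees (in the region of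
the case I of STAR) -/
def ST_ARMHb : Prop := ∀ al r Up Um G₁ G₂ : ℝ, |al| ≤ π / 6 → Arm al r Up Um →
  r ≤ cos al - √(1 / 4 - sin al ^ 2) → Um ≤ G₁ → Up ≤ G₂ → G₁ ≤ π / 2 + al → G₂ ≤ π / 2 - al →
  5 * π / 12 + al / 2 ≤ G₁ → 5 * π / 12 - al / 2 ≤ G₂ → G₁ + G₂ ≤ 160 / 180 * π →
  r ≤ br G₁ Um / 2 + br G₂ Up / 2

end NH
end H11ST
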