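import Mathlib

/-!
# The inequality part of `N_2(1/2) = 2` (MP_665203_co): statements

Five arms `T` (direction 0), `R` (60 degrees), `B2` (180), `B1` (180), `L` (300), straight exits on
the unit circle at the angles `O`, `60 + C`, `180 - A`, `180 + B`, `300 - D`; the offset
(exit angle minus direction) is `al = O, C, -A, B, -D`.
Gaps: `g2 = 60 + C - O` (T, R), `g1 = 120 - A - C` (R, B2), `g0 = A + B` (B2, B1),
`g4 = 120 - B - D` (B1, L), `g3 = 60 + D + O` (L, T).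
`Arm al r Up Um`: an arm which ends at a tripod at the distance `r` before its straight exit; the
children at `+60`, `-60` degrees exit at the arc distance `Up` (counterclockwise), `Um` (clockwise).
-/

set_option autoImplicit false

namespace H11ST
namespace NH

open Real

/-- chord -/
noncomputable def ch (x : ℝ) : ℝ := 2 * sin (x / 2)

/-- loss of a gap -/
noncomputable def br (G U : ℝ) : ℝ := ch G - ch (G - U)

/-- data of an arm -/
structure Arm (al r Up Um : ℝ) : Prop where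
  r0 : 0 ≤ r
  up0 : 0 ≤ Up
  um0 : 0 ≤ Um
  up : r = 4 / √3 * (sin (Up / 2) * cos (π / 3 - al - Up / 2))
  um : r = 4 / √3 * (sin (Um / 2) * cos (π / 3 + al - Um / 2))
  wp : -(π / 2) ≤ π / 3 - al - Up
  wm : -(π / 2) ≤ π / 3 + al - Um

theorem Arm.mirror {al r Up Um : ℝ} (h : Arm al r Up Um) : Arm (-al) r Um Up where
  r0 := h.r0
  up0 := h.um0
  um0 := h.up0
  up := by rw [sub_neg_eq_add]; exact h.um
  um := by rw [← sub_eq_add_neg]; exact h.up
  wp := by rw [sub_neg_eq_add]; exact h.wm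
  wm := by rw [← sub_eq_add_neg]; exact h.wp

/-- ARMB: arm B2 (and B1 by reflection): right gap at most `π/6 - al` -/
def ST_ARMB : Prop := ∀ al r Up Um G : ℝ, |al| ≤ π / 6 → Arm al r Up Um → Up ≤ G →
  G ≤ π / 6 - al → r ≤ br G Up

/-- ARM1: arm R, both gaps at most `π/2 + al`, weights 1/2 (left), 1 (right) -/
def ST_ARM1 : Prop := ∀ al r Up Um G₁ G₂ : ℝ, |al| ≤ π / 6 → Arm al r Up Um → Um ≤ G₁ →
  Up ≤ G₂ → G₁ ≤ π / 2 + al → G₂ ≤ π / 2 + al → r ≤ br G₁ Um / 2 + br G₂ Up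

/-- ARM2: arm R, left gap at most `π/2 + al` (weight 1), right gap at most `5π/6 - al`
(weight 1/2) -/
def ST_ARM2 : Prop := ∀ al r Up Um G₁ G₂ : ℝ, |al| ≤ π / 6 → Arm al r Up Um → Um ≤ G₁ →
  Up ≤ G₂ → G₁ ≤ π / 2 + al → G₂ ≤ 5 * π / 6 - al → r ≤ br G₁ Um + br G₂ Up / 2

/-- ARMT: arm T, weights 1/2 (left), 1 (right) -/
def ST_ARMT : Prop := ∀ al r Up Um G₁ G₂ : ℝ, |al| ≤ π / 6 → Arm al r Up Um → Um ≤ G₁ →
  Up ≤ G₂ → G₁ ≤ π / 2 + al → G₂ ≤ π / 2 - al → r ≤ br G₁ Um / 2 + br G₂ Up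

/-- ARMH: arm T, weights 1/2, 1/2; the tripod is at the distance at least 1/2 from the centre -/
def ST_ARMH : Prop := ∀ al r Up Um G₁ G₂ : ℝ, |al| ≤ π / 6 → Arm al r Up Um →
  r ≤ cos al - √(1 / 4 - sin al ^ 2) → Um ≤ G₁ → Up ≤ G₂ → G₁ ≤ π / 2 + al → G₂ ≤ π / 2 - al →
  r ≤ br G₁ Um / 2 + br G₂ Up / 2 + 24 / 1000 ∧
    (G₁ + G₂ ≤ 164 / 180 * π → r ≤ br G₁ Um / 2 + br G₂ Up / 2)

/-- the five directions: box and torque balance -/
structure Box (A B C D O : ℝ) : Prop where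
  a : |A| ≤ π / 6
  b : |B| ≤ π / 6
  c : |C| ≤ π / 6
  d : |D| ≤ π / 6
  o : |O| ≤ π / 6
  tor : sin C - sin D - sin A + sin B + sin O = 0

/-- BASE: the inequality without tripods -/
def ST_BASE : Prop := ∀ A B C D O : ℝ, Box A B C D O →
  ch (A + B) + ch (2 * π / 3 - A - C) + ch (π / 3 + C - O) + ch (π / 3 + D + O) +
      ch (2 * π / 3 - B - D) - max (ch (2 * π / 3 - A - C)) (ch (π / 3 + C - O)) / 2 -
      max (ch (π / 3 + D + O)) (ch (2 * π / 3 - B - D)) / 2 <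
    cos A + cos B + cos C + cos D + cos O

/-- BASEH: the stronger inequality when the two gaps at `T` are the larger ones and their sum is
at least 164 degrees -/
def ST_BASEH : Prop := ∀ A B C D O : ℝ, Box A B C D O →
  2 * π / 3 - A - C ≤ π / 3 + C - O → 2 * π / 3 - B - D ≤ π / 3 + D + O →
  164 / 180 * π ≤ (π / 3 + C - O) + (π / 3 + D + O) →
  ch (A + B) + ch (2 * π / 3 - A - C) + ch (π / 3 + C - O) / 2 + ch (π / 3 + D + O) / 2 +
      ch (2 * π / 3 - B - D) + 24 / 1000 <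
    cos A + cos B + cos C + cos D + cos O

/-- STAR: not all five exchanges can fail to shorten (`0 ≤ A + B`; every gap contains the two arcs) -/
def ST_STAR : Prop := ∀ A B C D O : ℝ, Box A B C D O →
  ∀ rT rR r2 r1 rL pT mT pR mR p2 m2 p1 m1 pL mL : ℝ,
  Arm O rT pT mT → Arm C rR pR mR → Arm (-A) r2 p2 m2 → Arm B r1 p1 m1 → Arm (-D) rL pL mL →
  rT ≤ cos O - √(1 / 4 - sin O ^ 2) →
  pT + mR ≤ π / 3 + C - O → pR + m2 ≤ 2 * π / 3 - A - C → p2 + m1 ≤ A + B →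
  p1 + mL ≤ 2 * π / 3 - B - D → pL + mT ≤ π / 3 + D + O →
  ∀ c0 c1 c2 c3 c4 L : ℝ, L = cos A + cos B + cos C + cos D + cos O - (rT + rR + r2 + r1 + rL) →
  c0 = ch (A + B - p2 - m1) → c1 = ch (2 * π / 3 - A - C - pR - m2) →
  c2 = ch (π / 3 + C - O - pT - mR) → c3 = ch (π / 3 + D + O - pL - mT) →
  c4 = ch (2 * π / 3 - B - D - p1 - mL) →
  ¬ (L ≤ c1 + c2 + c3 + c4 ∧ L ≤ c0 + c2 + c3 + c4 ∧ L ≤ c0 + c1 + c3 + c4 ∧
    L ≤ c0 + c1 + c2 + c4 ∧ L ≤ c0 + c1 + c2 + c3)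

end NH
end H11ST
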