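import Pool.Agent.Helper80.NH.Stm

/-! STAR from BASE, BASEH and the lemmas on the arms. -/

set_option autoImplicit false

namespace H11ST
namespace NH

open Real

theorem br_nonneg {G U : ℝ} (h0 : 0 ≤ U) (h1 : U ≤ G) (h2 : G ≤ π) : 0 ≤ br G U := by
  have e : br G U = 2 * (sin (G / 2) - sin ((G - U) / 2)) := by unfold br ch; ring
  rw [e]
  have : sin ((G - U) / 2) ≤ sin (G / 2) :=
    sin_le_sin_of_le_of_le_pi_div_two (by linarith [pi_pos]) (by linarith) (by linarith)
  linarith

theorem split {g U V : ℝ} (h0 : 0 ≤ U) (h1 : 0 ≤ V) (h2 : U + V ≤ g) (h3 : g ≤ π) :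
    ch (g - U - V) ≤ ch g - br g U - br g V := by
  have key : sin ((g - U) / 2) + sin ((g - V) / 2) - sin (g / 2) - sin ((g - U - V) / 2) =
      4 * sin ((2 * g - U - V) / 4) * (sin (U / 4) * sin (V / 4)) := by
    have e1 : sin ((g - U) / 2) + sin ((g - V) / 2) =
        2 * sin ((2 * g - U - V) / 4) * cos ((V - U) / 4) := by
      rw [sin_add_sin,
        show ((g - U) / 2 + (g - V) / 2) / 2 = (2 * g - U - V) / 4 by ring,
        show ((g - U) / 2 - (g - V) / 2) / 2 = (V - U) / 4 by ring]
    have e2 : sin (g / 2) + sin ((g - U - V) / 2) =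
        2 * sin ((2 * g - U - V) / 4) * cos ((U + V) / 4) := by
      rw [sin_add_sin,
        show (g / 2 + (g - U - V) / 2) / 2 = (2 * g - U - V) / 4 by ring,
        show (g / 2 - (g - U - V) / 2) / 2 = (U + V) / 4 by ring]
    have e3 : cos ((V - U) / 4) - cos ((U + V) / 4) = 2 * (sin (U / 4) * sin (V / 4)) := by
      have a1 : (V - U) / 4 = V / 4 - U / 4 := by ring
      have a2 : (U + V) / 4 = U / 4 + V / 4 := by ring
      rw [a1, a2, cos_sub, cos_add]
      ring
    calc sin ((g - U) / 2) + sin ((g - V) / 2) - sin (g / 2) - sin ((g - U - V) / 2)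
        = (sin ((g - U) / 2) + sin ((g - V) / 2)) - (sin (g / 2) + sin ((g - U - V) / 2)) := by ring
      _ = 2 * sin ((2 * g - U - V) / 4) * (cos ((V - U) / 4) - cos ((U + V) / 4)) := by
          rw [e1, e2]; ring
      _ = _ := by rw [e3]; ring
  have p1 : 0 ≤ sin ((2 * g - U - V) / 4) :=
    sin_nonneg_of_nonneg_of_le_pi (by linarith) (by linarith [pi_pos])
  have p2 : 0 ≤ sin (U / 4) := sin_nonneg_of_nonneg_of_le_pi (by linarith) (by linarith [pi_pos])
  have p3 : 0 ≤ sin (V / 4) := sin_nonneg_of_nonneg_of_le_pi (by linarith) (by linarith [pi_pos])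
  have p4 : 0 ≤ 4 * sin ((2 * g - U - V) / 4) * (sin (U / 4) * sin (V / 4)) := by positivity
  rw [← key] at p4
  unfold br ch
  linarith

theorem ch_mono {x y : ℝ} (h0 : 0 ≤ x) (h : x ≤ y) (h1 : y ≤ π) : ch x ≤ ch y := by
  unfold ch
  have : sin (x / 2) ≤ sin (y / 2) :=
    sin_le_sin_of_le_of_le_pi_div_two (by linarith [pi_pos]) (by linarith) (by linarith)
  linarith

/-- **STAR** -/
theorem star (hB : ST_BASE) (hBH : ST_BASEH) (hArB : ST_ARMB) (hAr1 : ST_ARM1) (hAr2 : ST_ARM2)
    (hArT : ST_ARMT) (hArH : ST_ARMH) : ST_STAR := by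
  intro A B C D O hx rT rR r2 r1 rL pT mT pR mR p2 m2 p1 m1 pL mL aT aR a2 a1 aL hrT k2 k1 k0 k4 k3
    c0 c1 c2 c3 c4 L hL e0 e1 e2 e3 e4 hall
  obtain ⟨f0, f1, f2, f3, f4⟩ := hall
  have hπ := pi_pos
  have bA := abs_le.1 hx.a
  have bB := abs_le.1 hx.b
  have bC := abs_le.1 hx.c
  have bD := abs_le.1 hx.d
  have bO := abs_le.1 hx.o
  have hO' : |-O| ≤ π / 6 := by rw [abs_neg]; exact hx.o
  have hA' : |-A| ≤ π / 6 := by rw [abs_neg]; exact hx.a
  have hB' : |-B| ≤ π / 6 := by rw [abs_neg]; exact hx.b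
  have aL' : Arm D rL mL pL := by
    have := aL.mirror
    rwa [neg_neg] at this
  have a1' : Arm (-B) r1 m1 p1 := a1.mirror
  have aT' : Arm (-O) rT mT pT := aT.mirror
  have q1 := aT.up0
  have q2 := aT.um0
  have q3 := aR.up0
  have q4 := aR.um0
  have q5 := a2.up0
  have q6 := a2.um0
  have q7 := a1.up0
  have q8 := a1.um0
  have q9 := aL.up0
  have q10 := aL.um0
  -- splitting
  have s0 := split q5 q8 k0 (by linarith)
  have s1 := split q3 q6 k1 (by linarith)
  have s2 := split q1 q4 k2 (by linarith)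
  have s3 := split q9 q2 k3 (by linarith)
  have s4 := split q7 q10 k4 (by linarith)
  rw [← e0] at s0
  rw [← e1] at s1
  rw [← e2] at s2
  rw [← e3] at s3
  rw [← e4] at s4
  -- arms B
  have t2 := hArB (-A) r2 p2 m2 (A + B) hA' a2 (by linarith) (by linarith)
  have t1 := hArB (-B) r1 m1 p1 (A + B) hB' a1' (by linarith) (by linarith)
  have n1 := br_nonneg (G := 2 * π / 3 - A - C) q6 (by linarith) (by linarith)
  have n4 := br_nonneg (G := 2 * π / 3 - B - D) q7 (by linarith) (by linarith)
  have n3 := br_nonneg (G := π / 3 + D + O) q2 (by linarith) (by linarith)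
  have hb := hB A B C D O hx
  rcases le_total (2 * π / 3 - A - C) (π / 3 + C - O) with h12 | h12
  · have tR := hAr1 C rR pR mR (π / 3 + C - O) (2 * π / 3 - A - C) hx.c aR (by linarith)
      (by linarith) (by linarith) (by linarith)
    have m12 : max (ch (2 * π / 3 - A - C)) (ch (π / 3 + C - O)) = ch (π / 3 + C - O) :=
      max_eq_right (ch_mono (by linarith) h12 (by linarith))
    rw [m12] at hb
    rcases le_total (2 * π / 3 - B - D) (π / 3 + D + O) with h34 | h34
    · have tL := hAr1 D rL mL pL (π / 3 + D + O) (2 * π / 3 - B - D) hx.d aL' (by linarith)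
        (by linarith) (by linarith) (by linarith)
      have m34 : max (ch (π / 3 + D + O)) (ch (2 * π / 3 - B - D)) = ch (π / 3 + D + O) :=
        max_eq_left (ch_mono (by linarith) h34 (by linarith))
      rw [m34] at hb
      obtain ⟨tT, tT'⟩ := hArH O rT pT mT (π / 3 + D + O) (π / 3 + C - O) hx.o aT hrT (by linarith)
        (by linarith) (by linarith) (by linarith)
      rcases le_total ((π / 3 + D + O) + (π / 3 + C - O)) (164 / 180 * π) with hs | hs
      · have tT2 := tT' hs
        linarith only [f2, f3, s0, s1, s2, s3, s4, t1, t2, tR, tL, tT2, n1, n4, hb, hL]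
      · have hb2 := hBH A B C D O hx h12 h34 (by linarith)
        linarith only [f2, f3, s0, s1, s2, s3, s4, t1, t2, tR, tL, tT, n1, n4, hb2, hL]
    · have tL := hAr2 D rL mL pL (π / 3 + D + O) (2 * π / 3 - B - D) hx.d aL' (by linarith)
        (by linarith) (by linarith) (by linarith)
      have m34 : max (ch (π / 3 + D + O)) (ch (2 * π / 3 - B - D)) = ch (2 * π / 3 - B - D) :=
        max_eq_right (ch_mono (by linarith) h34 (by linarith))
      rw [m34] at hb
      have tT := hArT (-O) rT mT pT (π / 3 + C - O) (π / 3 + D + O) hO' aT' (by linarith)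
        (by linarith) (by linarith) (by linarith)
      linarith only [f2, f4, s0, s1, s2, s3, s4, t1, t2, tR, tL, tT, n1, n4, hb, hL]
  · have tR := hAr2 C rR pR mR (π / 3 + C - O) (2 * π / 3 - A - C) hx.c aR (by linarith)
      (by linarith) (by linarith) (by linarith)
    have m12 : max (ch (2 * π / 3 - A - C)) (ch (π / 3 + C - O)) = ch (2 * π / 3 - A - C) :=
      max_eq_left (ch_mono (by linarith) h12 (by linarith))
    rw [m12] at hb
    have tT := hArT O rT pT mT (π / 3 + D + O) (π / 3 + C - O) hx.o aT (by linarith)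
      (by linarith) (by linarith) (by linarith)
    rcases le_total (2 * π / 3 - B - D) (π / 3 + D + O) with h34 | h34
    · have tL := hAr1 D rL mL pL (π / 3 + D + O) (2 * π / 3 - B - D) hx.d aL' (by linarith)
        (by linarith) (by linarith) (by linarith)
      have m34 : max (ch (π / 3 + D + O)) (ch (2 * π / 3 - B - D)) = ch (π / 3 + D + O) :=
        max_eq_left (ch_mono (by linarith) h34 (by linarith))
      rw [m34] at hb
      linarith only [f1, f3, s0, s1, s2, s3, s4, t1, t2, tR, tL, tT, n1, n4, hb, hL]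
    · have tL := hAr2 D rL mL pL (π / 3 + D + O) (2 * π / 3 - B - D) hx.d aL' (by linarith)
        (by linarith) (by linarith) (by linarith)
      have m34 : max (ch (π / 3 + D + O)) (ch (2 * π / 3 - B - D)) = ch (2 * π / 3 - B - D) :=
        max_eq_right (ch_mono (by linarith) h34 (by linarith))
      rw [m34] at hb
      linarith only [f1, f4, s0, s1, s2, s3, s4, t1, t2, tR, tL, tT, n1, n3, n4, hb, hL]

end NH
end H11ST
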