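import Pool.Agent.Helper80.NH.Stm2
import Pool.Agent.Helper80.NH.Star

/-! STAR from BASE, BASEH160 and the lemmas on the arms (ARMH in two halves). -/

set_option autoImplicit false

namespace H11ST
namespace NH

open Real

theorem br_anti_g {G G' U : ℝ} (h0 : 0 ≤ U) (h1 : U ≤ G) (h2 : G ≤ G') (h3 : G' ≤ π) :
    br G' U ≤ br G U := by
  have e : ∀ x : ℝ, br x U = 4 * (cos ((2 * x - U) / 4) * sin (U / 4)) := by
    intro x
    have h := sin_sub_sin (x / 2) ((x - U) / 2)
    have a1 : (x / 2 - (x - U) / 2) / 2 = U / 4 := by ring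
    have a2 : (x / 2 + (x - U) / 2) / 2 = (2 * x - U) / 4 := by ring
    rw [a1, a2] at h
    unfold br ch
    linarith
  have p1 : 0 ≤ sin (U / 4) := sin_nonneg_of_nonneg_of_le_pi (by linarith) (by linarith [pi_pos])
  have p2 : cos ((2 * G' - U) / 4) ≤ cos ((2 * G - U) / 4) :=
    cos_le_cos_of_nonneg_of_le_pi (by linarith) (by linarith) (by linarith)
  rw [e, e]
  nlinarith [mul_le_mul_of_nonneg_right p2 p1]

/-- **STAR** (second form) -/
theorem star2 (hB : ST_BASE) (hBH : ST_BASEH160) (hArB : ST_ARMB) (hAr1 : ST_ARM1)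
    (hAr2 : ST_ARM2) (hArT : ST_ARMT) (hArHa : ST_ARMHa) (hArHb : ST_ARMHb) : ST_STAR := by
  intro A B C D O hx rT rR r2 r1 rL pT mT pR mR p2 m2 p1 m1 pL mL aT aR a2 a1 aL hrT k2 k1 k0 k4 k3
    c0 c1 c2 c3 c4 L hL e0 e1 e2 e3 e4 hall
  obtain ⟨f0, f1, f2, f3, f4⟩ := hall
  have hπ := pi_pos
  have bA := abs_le.1 hx.a
  have bB := abs_le.1 hx.b
  have bC := abs_le.1 hx.c
  have bD := abs_le.1 hx.d
  have bO := abs_le.1 hx.o
  have hO' : |-O| ≤ π / 6 := by rw [abs_neg]; exact hx.o
  have hA' : |-A| ≤ π / 6 := by rw [abs_neg]; exact hx.a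
  have hB' : |-B| ≤ π / 6 := by rw [abs_neg]; exact hx.b
  have aL' : Arm D rL mL pL := by
    have := aL.mirror
    rwa [neg_neg] at this
  have a1' : Arm (-B) r1 m1 p1 := a1.mirror
  have aT' : Arm (-O) rT mT pT := aT.mirror
  have q1 := aT.up0
  have q2 := aT.um0
  have q3 := aR.up0
  have q4 := aR.um0
  have q5 := a2.up0
  have q6 := a2.um0
  have q7 := a1.up0
  have q8 := a1.um0
  have q9 := aL.up0
  have q10 := aL.um0
  -- splitting
  have s0 := split q5 q8 k0 (by linarith)
  have s1 := split q3 q6 k1 (by linarith)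
  have s2 := split q1 q4 k2 (by linarith)
  have s3 := split q9 q2 k3 (by linarith)
  have s4 := split q7 q10 k4 (by linarith)
  rw [← e0] at s0
  rw [← e1] at s1
  rw [← e2] at s2
  rw [← e3] at s3
  rw [← e4] at s4
  -- arms B
  have t2 := hArB (-A) r2 p2 m2 (A + B) hA' a2 (by linarith) (by linarith)
  have t1 := hArB (-B) r1 m1 p1 (A + B) hB' a1' (by linarith) (by linarith)
  have n1 := br_nonneg (G := 2 * π / 3 - A - C) q6 (by linarith) (by linarith)
  have n4 := br_nonneg (G := 2 * π / 3 - B - D) q7 (by linarith) (by linarith)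
  have n3 := br_nonneg (G := π / 3 + D + O) q2 (by linarith) (by linarith)
  have hb := hB A B C D O hx
  rcases le_total (2 * π / 3 - A - C) (π / 3 + C - O) with h12 | h12
  · have tR := hAr1 C rR pR mR (π / 3 + C - O) (2 * π / 3 - A - C) hx.c aR (by linarith)
      (by linarith) (by linarith) (by linarith)
    have m12 : max (ch (2 * π / 3 - A - C)) (ch (π / 3 + C - O)) = ch (π / 3 + C - O) :=
      max_eq_right (ch_mono (by linarith) h12 (by linarith))
    rw [m12] at hb
    rcases le_total (2 * π / 3 - B - D) (π / 3 + D + O) with h34 | h34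
    · have tL := hAr1 D rL mL pL (π / 3 + D + O) (2 * π / 3 - B - D) hx.d aL' (by linarith)
        (by linarith) (by linarith) (by linarith)
      have m34 : max (ch (π / 3 + D + O)) (ch (2 * π / 3 - B - D)) = ch (π / 3 + D + O) :=
        max_eq_left (ch_mono (by linarith) h34 (by linarith))
      rw [m34] at hb
      rcases le_total ((π / 3 + D + O) + (π / 3 + C - O)) (160 / 180 * π) with hs | hs
      · have tT2 := hArHb O rT pT mT (π / 3 + D + O) (π / 3 + C - O) hx.o aT hrT (by linarith)
          (by linarith) (by linarith) (by linarith) (by linarith) (by linarith) hs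
        linarith only [f2, f3, s0, s1, s2, s3, s4, t1, t2, tR, tL, tT2, n1, n4, hb, hL]
      · have tT := hArHa O rT pT mT hx.o aT hrT
        have w3 := br_anti_g (G := π / 3 + D + O) (G' := π / 2 + O) q2 (by linarith) (by linarith)
          (by linarith)
        have w2 := br_anti_g (G := π / 3 + C - O) (G' := π / 2 - O) q1 (by linarith) (by linarith)
          (by linarith)
        have hb2 := hBH A B C D O hx h12 h34 (by linarith)
        linarith only [f2, f3, s0, s1, s2, s3, s4, t1, t2, tR, tL, tT, w2, w3, n1, n4, hb2, hL]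
    · have tL := hAr2 D rL mL pL (π / 3 + D + O) (2 * π / 3 - B - D) hx.d aL' (by linarith)
        (by linarith) (by linarith) (by linarith)
      have m34 : max (ch (π / 3 + D + O)) (ch (2 * π / 3 - B - D)) = ch (2 * π / 3 - B - D) :=
        max_eq_right (ch_mono (by linarith) h34 (by linarith))
      rw [m34] at hb
      have tT := hArT (-O) rT mT pT (π / 3 + C - O) (π / 3 + D + O) hO' aT' (by linarith)
        (by linarith) (by linarith) (by linarith)
      linarith only [f2, f4, s0, s1, s2, s3, s4, t1, t2, tR, tL, tT, n1, n4, hb, hL]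
  · have tR := hAr2 C rR pR mR (π / 3 + C - O) (2 * π / 3 - A - C) hx.c aR (by linarith)
      (by linarith) (by linarith) (by linarith)
    have m12 : max (ch (2 * π / 3 - A - C)) (ch (π / 3 + C - O)) = ch (2 * π / 3 - A - C) :=
      max_eq_left (ch_mono (by linarith) h12 (by linarith))
    rw [m12] at hb
    have tT := hArT O rT pT mT (π / 3 + D + O) (π / 3 + C - O) hx.o aT (by linarith)
      (by linarith) (by linarith) (by linarith)
    rcases le_total (2 * π / 3 - B - D) (π / 3 + D + O) with h34 | h34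
    · have tL := hAr1 D rL mL pL (π / 3 + D + O) (2 * π / 3 - B - D) hx.d aL' (by linarith)
        (by linarith) (by linarith) (by linarith)
      have m34 : max (ch (π / 3 + D + O)) (ch (2 * π / 3 - B - D)) = ch (π / 3 + D + O) :=
        max_eq_left (ch_mono (by linarith) h34 (by linarith))
      rw [m34] at hb
      linarith only [f1, f3, s0, s1, s2, s3, s4, t1, t2, tR, tL, tT, n1, n4, hb, hL]
    · have tL := hAr2 D rL mL pL (π / 3 + D + O) (2 * π / 3 - B - D) hx.d aL' (by linarith)
        (by linarith) (by linarith) (by linarith)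
      have m34 : max (ch (π / 3 + D + O)) (ch (2 * π / 3 - B - D)) = ch (2 * π / 3 - B - D) :=
        max_eq_right (ch_mono (by linarith) h34 (by linarith))
      rw [m34] at hb
      linarith only [f1, f4, s0, s1, s2, s3, s4, t1, t2, tR, tL, tT, n1, n3, n4, hb, hL]

end NH
end H11ST
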