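import Pool.Agent.Helper80.NH.StarRow
import Pool.Agent.Helper63.NH.Arm
import Pool.Agent.Helper20.NH.ArmHb
import Pool.Agent.Helper33.N2.ArmHa
import Pool.Agent.Helper33.N2.H160

/-! Row STAR of the sheet NH, without hypotheses. -/

set_option autoImplicit false

namespace H11ST
namespace NH

theorem st_star : ST_STAR :=
  star2 Pool.Agent.Helper33.N2.st_BASE Pool.Agent.Helper33.N2.baseH160 armB arm1 arm2 armT
    Pool.Agent.Helper33.N2.st_ARMHa armHb

/-- **row STAR** -/
theorem star_row : NH_STAR := star_of st_star

end NH
end H11ST
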