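import Pool.Agent.Helper11.NH.Sheet
import Pool.Agent.Helper80.NH.Star2

/-! Row STAR of the sheet NH from the inequality `ST_STAR`. -/

set_option autoImplicit false

namespace H11ST
namespace NH

open Real

theorem arm_of {al r : ℝ} (hal : |al| ≤ π / 6) (h0 : 0 ≤ r)
    (hr : r ≤ cos al - √(1 / 4 - sin al ^ 2)) :
    Arm al r (UU (π / 3 - al) r) (UU (π / 3 + al) r) := by
  have hpi := pi_pos
  obtain ⟨l1, l2⟩ := abs_le.1 hal
  have h3 : 0 < √3 := Real.sqrt_pos.2 (by norm_num)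
  have h33 : √3 * √3 = (3 : ℝ) := Real.mul_self_sqrt (by norm_num)
  have h34 : √3 ≤ 2 := by nlinarith
  have hr1 : r ≤ 1 := by
    have := Real.sqrt_nonneg (1 / 4 - sin al ^ 2)
    have := cos_le_one al
    linarith
  have key : ∀ b : ℝ, π / 6 ≤ b → b ≤ π / 2 →
      0 ≤ UU b r ∧ r = 4 / √3 * (sin (UU b r / 2) * cos (b - UU b r / 2)) ∧
        -(π / 2) ≤ b - UU b r := by
    intro b hb0 hb1
    have hs0 : 0 ≤ sin b := sin_nonneg_of_nonneg_of_le_pi (by linarith) (by linarith)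
    have hs1 := sin_le_one b
    have hk : 0 ≤ √3 / 2 * r := by positivity
    have hk1 : √3 / 2 * r ≤ 1 := by nlinarith
    have a1 : sin (arcsin (sin b - √3 / 2 * r)) = sin b - √3 / 2 * r :=
      sin_arcsin (by linarith) (by linarith)
    have a2 : arcsin (sin b - √3 / 2 * r) ≤ b := by
      have := monotone_arcsin (show sin b - √3 / 2 * r ≤ sin b by linarith)
      rwa [arcsin_sin (by linarith) hb1] at this
    have a3 := neg_pi_div_two_le_arcsin (sin b - √3 / 2 * r)
    refine ⟨?_, ?_, ?_⟩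
    · unfold UU; linarith
    · unfold UU
      have e := sin_sub_sin b (arcsin (sin b - √3 / 2 * r))
      have e1 : b - (b - arcsin (sin b - √3 / 2 * r)) / 2 =
          (b + arcsin (sin b - √3 / 2 * r)) / 2 := by ring
      rw [e1]
      have e2 : √3 / 2 * r = 2 * (sin ((b - arcsin (sin b - √3 / 2 * r)) / 2) *
          cos ((b + arcsin (sin b - √3 / 2 * r)) / 2)) := by
        rw [← mul_assoc, ← e, a1]; ring
      generalize sin ((b - arcsin (sin b - √3 / 2 * r)) / 2) *
          cos ((b + arcsin (sin b - √3 / 2 * r)) / 2) = t at e2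
      field_simp
      nlinarith
    · unfold UU; linarith
  obtain ⟨p1, p2, p3⟩ := key (π / 3 - al) (by linarith) (by linarith)
  obtain ⟨m1, m2, m3⟩ := key (π / 3 + al) (by linarith) (by linarith)
  exact ⟨h0, p1, m1, p2, m2, p3, m3⟩

theorem star_of (hS : ST_STAR) : NH_STAR := by
  intro th rr h6 hs h0 hl hg hall
  have ha : ∀ i, Arm (th i) (rr i) (Up th rr i) (Um th rr i) := fun i =>
    arm_of (h6 i) (h0 i) (hl i)
  have g0 := hg 0
  have g1 := hg 1
  have g2 := hg 2
  have g3 := hg 3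
  have g4 := hg 4
  have f0 := hall 0
  have f1 := hall 1
  have f2 := hall 2
  have f3 := hall 3
  have f4 := hall 4
  have s5 : ∀ f : Fin 5 → ℝ, ∑ i, f i = f 0 + f 1 + f 2 + f 3 + f 4 := fun f =>
    Fin.sum_univ_five f
  have e0 : ∀ (f : Fin 5 → ℝ) (j : Fin 5), ∑ i ∈ Finset.univ.erase j, f i = ∑ i, f i - f j := by
    intro f j
    rw [Finset.sum_erase_eq_sub (Finset.mem_univ j)]
  rw [e0, s5, s5, s5] at f0 f1 f2 f3 f4
  rw [s5] at hs
  have hbox : Box (-th 2) (th 3) (th 1) (-th 4) (th 0) :=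
    { a := by rw [abs_neg]; exact h6 2
      b := h6 3
      c := h6 1
      d := by rw [abs_neg]; exact h6 4
      o := h6 0
      tor := by rw [sin_neg, sin_neg]; linarith }
  refine hS (-th 2) (th 3) (th 1) (-th 4) (th 0) hbox (rr 0) (rr 1) (rr 2) (rr 3) (rr 4)
    (Up th rr 0) (Um th rr 0) (Up th rr 1) (Um th rr 1) (Up th rr 2) (Um th rr 2)
    (Up th rr 3) (Um th rr 3) (Up th rr 4) (Um th rr 4) (ha 0) (ha 1)
    (by rw [neg_neg]; exact ha 2) (ha 3) (by rw [neg_neg]; exact ha 4) (hl 0) ?_ ?_ ?_ ?_ ?_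
    (chd th rr 2) (chd th rr 1) (chd th rr 0) (chd th rr 4) (chd th rr 3)
    (cos (-th 2) + cos (th 3) + cos (th 1) + cos (-th 4) + cos (th 0) -
      (rr 0 + rr 1 + rr 2 + rr 3 + rr 4)) rfl ?_ ?_ ?_ ?_ ?_ ?_
  · have : gap th 0 = π / 3 + th 1 - th 0 := rfl
    rw [this] at g0
    simpa using g0
  · have : gap th 1 = 2 * π / 3 + th 2 - th 1 := rfl
    rw [this] at g1
    have e : (1 : Fin 5) + 1 = 2 := rfl
    rw [e] at g1
    linarith
  · have : gap th 2 = th 3 - th 2 := rfl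
    rw [this] at g2
    have e : (2 : Fin 5) + 1 = 3 := rfl
    rw [e] at g2
    linarith
  · have : gap th 3 = 2 * π / 3 + th 4 - th 3 := rfl
    rw [this] at g3
    have e : (3 : Fin 5) + 1 = 4 := rfl
    rw [e] at g3
    linarith
  · have : gap th 4 = π / 3 + th 0 - th 4 := rfl
    rw [this] at g4
    have e : (4 : Fin 5) + 1 = 0 := rfl
    rw [e] at g4
    linarith
  · have : gap th 2 = th 3 - th 2 := rfl
    have e : (2 : Fin 5) + 1 = 3 := rfl
    unfold chd ch
    rw [this, e]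
    congr 3; ring
  · have : gap th 1 = 2 * π / 3 + th 2 - th 1 := rfl
    have e : (1 : Fin 5) + 1 = 2 := rfl
    unfold chd ch
    rw [this, e]
    congr 3; ring
  · have : gap th 0 = π / 3 + th 1 - th 0 := rfl
    have e : (0 : Fin 5) + 1 = 1 := rfl
    unfold chd ch
    rw [this, e]
  · have : gap th 4 = π / 3 + th 0 - th 4 := rfl
    have e : (4 : Fin 5) + 1 = 0 := rfl
    unfold chd ch
    rw [this, e]
    congr 3; ring
  · have : gap th 3 = 2 * π / 3 + th 4 - th 3 := rfl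
    have e : (3 : Fin 5) + 1 = 4 := rfl
    unfold chd ch
    rw [this, e]
    congr 3; ring
  · rw [cos_neg, cos_neg]
    refine ⟨?_, ?_, ?_, ?_, ?_⟩ <;> linarith

end NH
end H11ST
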